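import Mathlib

set_option autoImplicit false

namespace Pool.Agent.Results.MP_2e66a2_lc.ComplementNotRational

open MvPowerSeries

variable {σ : Type*}

/-- The canonical projection `c : Σ* → Σ^⊕` onto the free commutative monoid: the Parikh vector
of the word `w`. -/
noncomputable def parikh (w : List σ) : σ →₀ ℕ :=
  (w.map fun a => Finsupp.single a 1).sum

/-- The characteristic series of `L` in commuting variables: its coefficient at the Parikh
vector `m` is the number of words of `L` with Parikh vector `m`. -/
noncomputable def charSeries (L : Language σ) : MvPowerSeries σ ℕ :=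
  fun m => Set.ncard {w : List σ | w ∈ L ∧ parikh w = m}

/-- The star `S^* = ∑_{k ≥ 0} S^k` (used only for `S` with zero constant term, when for every
monomial only finitely many powers of `S` contribute). -/
noncomputable def starSeries (S : MvPowerSeries σ ℕ) : MvPowerSeries σ ℕ :=
  fun m => ∑ᶠ k : ℕ, coeff m (S ^ k)

/-- The rational series over the semiring `ℕ` in commuting variables: the smallest family of
series containing the series of finite support, closed under sum, Cauchy product, and the star
of series with zero constant term. -/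
inductive IsRational : MvPowerSeries σ ℕ → Prop
  | finiteSupport (S : MvPowerSeries σ ℕ) : {m | coeff m S ≠ 0}.Finite → IsRational S
  | add (S T : MvPowerSeries σ ℕ) : IsRational S → IsRational T → IsRational (S + T)
  | mul (S T : MvPowerSeries σ ℕ) : IsRational S → IsRational T → IsRational (S * T)
  | star (S : MvPowerSeries σ ℕ) :
      constantCoeff S = 0 → IsRational S → IsRational (starSeries S)

/-! ### The star -/

lemma coeff_star_eq {S : MvPowerSeries σ ℕ} (h : constantCoeff S = 0) (m : σ →₀ ℕ) (N : ℕ)
    (hN : m.degree < N) :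
    coeff m (starSeries S) = ∑ k ∈ Finset.range N, coeff m (S ^ k) := by
  change (∑ᶠ k : ℕ, coeff m (S ^ k)) = _
  apply finsum_eq_sum_of_support_subset
  intro k hk
  simp only [Function.mem_support] at hk
  simp only [Finset.coe_range, Set.mem_Iio]
  by_contra hkN
  apply hk
  apply coeff_eq_zero_of_constantCoeff_nilpotent (m := 1) (by simpa using h)
  omega

lemma star_eq {S : MvPowerSeries σ ℕ} (h : constantCoeff S = 0) :
    starSeries S = 1 + S * starSeries S := by
  classical
  ext m
  rw [coeff_star_eq h m (m.degree + 1 + 1) (by omega), Finset.sum_range_succ', map_add, coeff_mul,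
    pow_zero, add_comm]
  congr 1
  have : ∀ p ∈ Finset.HasAntidiagonal.antidiagonal m, coeff p.1 S * coeff p.2 (starSeries S) =
      ∑ k ∈ Finset.range (m.degree + 1), coeff p.1 S * coeff p.2 (S ^ k) := by
    intro p hp
    rw [Finset.HasAntidiagonal.mem_antidiagonal] at hp
    rw [coeff_star_eq h p.2 (m.degree + 1) ?_, Finset.mul_sum]
    rw [← hp, map_add]
    omega
  rw [Finset.sum_congr rfl this, Finset.sum_comm]
  apply Finset.sum_congr rfl
  intro k _
  rw [pow_succ', coeff_mul]

lemma unique {U Y Y' Z : MvPowerSeries σ ℕ} (h : constantCoeff U = 0)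
    (hY : Y = Z + U * Y) (hY' : Y' = Z + U * Y') : Y = Y' := by
  classical
  ext m
  induction hn : m.degree using Nat.strong_induction_on generalizing m with
  | _ n ih =>
    rw [hY, hY', map_add, map_add, coeff_mul, coeff_mul]
    congr 1
    apply Finset.sum_congr rfl
    intro p hp
    rw [Finset.HasAntidiagonal.mem_antidiagonal] at hp
    by_cases hp1 : p.1 = 0
    · rw [hp1, coeff_zero_eq_constantCoeff_apply, h]; simp
    · rw [ih p.2.degree ?_ p.2 rfl]
      rw [← hn, ← hp, map_add]
      have : p.1.degree ≠ 0 := by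
        rw [Ne, Finsupp.degree_eq_zero_iff]; exact hp1
      omega

lemma eq_star_mul {U Y Z : MvPowerSeries σ ℕ} (h : constantCoeff U = 0)
    (hY : Y = Z + U * Y) : Y = starSeries U * Z := by
  apply unique h hY
  conv_lhs => rw [star_eq h]
  ring

/-! ### Rational series and rational differences -/

lemma isRational_zero : IsRational (0 : MvPowerSeries σ ℕ) :=
  .finiteSupport _ (by simp)

lemma isRational_monomial (m : σ →₀ ℕ) (n : ℕ) : IsRational (monomial m n) := by
  classical
  refine .finiteSupport _ ((Set.finite_singleton m).subset ?_)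
  intro k hk
  simp only [Set.mem_ofPred_eq, coeff_monomial] at hk
  by_contra h
  exact hk (if_neg h)

lemma isRational_one : IsRational (1 : MvPowerSeries σ ℕ) := by
  rw [← monomial_zero_one]; exact isRational_monomial _ _

lemma isRational_X (a : σ) : IsRational (X a : MvPowerSeries σ ℕ) :=
  isRational_monomial _ _

lemma isRational_natCast (n : ℕ) : IsRational (n : MvPowerSeries σ ℕ) := by
  induction n with
  | zero => simpa using isRational_zero
  | succ n ih => rw [Nat.cast_succ]; exact ih.add _ _ isRational_one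

lemma isRational_pow {S : MvPowerSeries σ ℕ} (h : IsRational S) (n : ℕ) : IsRational (S ^ n) := by
  induction n with
  | zero => simpa using isRational_one
  | succ n ih => rw [pow_succ]; exact ih.mul _ _ h

lemma isRational_sum {ι : Type*} (s : Finset ι) (f : ι → MvPowerSeries σ ℕ)
    (h : ∀ i ∈ s, IsRational (f i)) : IsRational (∑ i ∈ s, f i) := by
  classical
  induction s using Finset.induction_on with
  | empty => simpa using isRational_zero
  | insert a s ha ih =>
    rw [Finset.sum_insert ha]
    exact (h a (Finset.mem_insert_self a s)).add _ _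
      (ih fun i hi => h i (Finset.mem_insert_of_mem hi))

lemma constantCoeff_X_mul (a : σ) (Y : MvPowerSeries σ ℕ) : constantCoeff (X a * Y) = 0 := by
  simp

/-- `RLe S T`: the difference `T - S` exists and is a rational series over `ℕ`. -/
def RLe (S T : MvPowerSeries σ ℕ) : Prop := ∃ D, IsRational D ∧ T = S + D

lemma RLe.refl (S : MvPowerSeries σ ℕ) : RLe S S := ⟨0, isRational_zero, by simp⟩

lemma RLe.trans {S T U : MvPowerSeries σ ℕ} (h : RLe S T) (h' : RLe T U) : RLe S U := by
  obtain ⟨D, hD, rfl⟩ := h
  obtain ⟨D', hD', rfl⟩ := h'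
  exact ⟨D + D', hD.add _ _ hD', by ring⟩

lemma RLe.add {S T S' T' : MvPowerSeries σ ℕ} (h : RLe S T) (h' : RLe S' T') :
    RLe (S + S') (T + T') := by
  obtain ⟨D, hD, rfl⟩ := h
  obtain ⟨D', hD', rfl⟩ := h'
  exact ⟨D + D', hD.add _ _ hD', by ring⟩

lemma RLe.mul {S T S' T' : MvPowerSeries σ ℕ} (hS : IsRational S) (hS' : IsRational S')
    (h : RLe S T) (h' : RLe S' T') : RLe (S * S') (T * T') := by
  obtain ⟨D, hD, rfl⟩ := h
  obtain ⟨D', hD', rfl⟩ := h'
  exact ⟨S * D' + D * S' + D * D', ((hS.mul _ _ hD').add _ _ (hD.mul _ _ hS')).add _ _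
    (hD.mul _ _ hD'), by ring⟩

lemma RLe.mul_left {S T : MvPowerSeries σ ℕ} (U : MvPowerSeries σ ℕ) (hU : IsRational U)
    (h : RLe S T) : RLe (U * S) (U * T) := by
  obtain ⟨D, hD, rfl⟩ := h
  exact ⟨U * D, hU.mul _ _ hD, by ring⟩

lemma RLe.add_right (S T : MvPowerSeries σ ℕ) (h : IsRational T) : RLe S (S + T) := ⟨T, h, rfl⟩

lemma RLe.add_left (S T : MvPowerSeries σ ℕ) (h : IsRational S) : RLe T (S + T) :=
  ⟨S, h, by ring⟩

lemma one_rle_star {S : MvPowerSeries σ ℕ} (h : constantCoeff S = 0) (hS : IsRational S) :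
    RLe 1 (starSeries S) :=
  ⟨S * starSeries S, hS.mul _ _ (hS.star _ h), star_eq h⟩

lemma mul_star_rle_star {S : MvPowerSeries σ ℕ} (h : constantCoeff S = 0) :
    RLe (S * starSeries S) (starSeries S) :=
  ⟨1, isRational_one, by conv_lhs => rw [star_eq h, add_comm]⟩

/-! ### Two letters -/

section TwoLetters

variable (a b : σ)

/-- The series of all words over `{a, b}`. -/
noncomputable def G : MvPowerSeries σ ℕ := starSeries (X a + X b)

lemma isRational_G : IsRational (G a b) :=
  ((isRational_X a).add _ _ (isRational_X b)).star _ (by simp)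

lemma G_eq : G a b = 1 + (X a + X b) * G a b := star_eq (by simp)

lemma isRational_star_X : IsRational (starSeries (X a : MvPowerSeries σ ℕ)) :=
  (isRational_X a).star _ (by simp)

lemma G_eq_left : G a b = starSeries (X a) * (1 + X b * G a b) := by
  apply eq_star_mul (by simp)
  conv_lhs => rw [G_eq]
  ring

lemma G_comm : G a b = G b a := by
  unfold G; rw [add_comm]

lemma star_X_rle_G : RLe (starSeries (X a)) (G a b) := by
  refine ⟨starSeries (X a) * (X b * G a b), (isRational_star_X a).mul _ _
    ((isRational_X b).mul _ _ (isRational_G a b)), ?_⟩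
  conv_lhs => rw [G_eq_left]
  ring

lemma star_mul_star_rle_G : RLe (starSeries (X a) * starSeries (X b)) (G a b) := by
  rw [G_eq_left a b]
  apply RLe.mul_left _ (isRational_star_X a)
  have h : RLe (starSeries (X b)) (G a b) := by rw [G_comm]; exact star_X_rle_G b a
  have h2 := (RLe.refl (1 : MvPowerSeries σ ℕ)).add (h.mul_left (X b) (isRational_X b))
  rwa [← star_eq (by simp)] at h2

lemma step_rle_G : RLe (starSeries (X a) * X b * G a b) (G a b) := by
  refine ⟨starSeries (X a), isRational_star_X a, ?_⟩
  conv_lhs => rw [G_eq_left]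
  ring

lemma step_rle_G' : RLe (starSeries (X b) * X a * G a b) (G a b) := by
  rw [G_comm a b]; exact step_rle_G b a

lemma iter_rle {U V : MvPowerSeries σ ℕ} (hU : IsRational U)
    (h : RLe (U * V) V) (n : ℕ) : RLe (U ^ n * V) V := by
  induction n with
  | zero => simpa using RLe.refl V
  | succ n ih =>
    have := (ih.mul_left U hU).trans h
    rwa [← mul_assoc, ← pow_succ'] at this

/-- `a²b⁴ (a*)⁵ (b*)³` can be subtracted from `(a+b)*`. -/
lemma block_rle_G :
    RLe (X a ^ 2 * X b ^ 4 * (starSeries (X a) ^ 5 * starSeries (X b) ^ 3)) (G a b) := by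
  have h1 := iter_rle ((isRational_star_X a).mul _ _ (isRational_X b)) (step_rle_G a b) 4
  have h2 := iter_rle ((isRational_star_X b).mul _ _ (isRational_X a)) (step_rle_G' a b) 2
  have h3 := (star_mul_star_rle_G a b).mul_left _
    (isRational_pow ((isRational_star_X b).mul _ _ (isRational_X a)) 2)
  have h4 := (h3.trans h2).mul_left _
    (isRational_pow ((isRational_star_X a).mul _ _ (isRational_X b)) 4)
  have h5 := h4.trans h1
  convert h5 using 1
  ring

lemma sum_rle_G : RLe ((X a + X b) * G a b) (G a b) :=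
  ⟨1, isRational_one, by conv_lhs => rw [G_eq, add_comm]⟩

/-- `20 a³b³ (a+b)*` can be subtracted from `(a+b)*`. -/
lemma twenty_rle_G : RLe (20 * (X a ^ 3 * X b ^ 3) * G a b) (G a b) := by
  have h1 := iter_rle ((isRational_X a).add _ _ (isRational_X b)) (sum_rle_G a b) 6
  refine RLe.trans ?_ h1
  have hX := isRational_X (σ := σ) a
  have hY := isRational_X (σ := σ) b
  have hG := isRational_G a b
  refine ⟨(X a ^ 6 + 6 * (X a ^ 5 * X b) + 15 * (X a ^ 4 * X b ^ 2) + 15 * (X a ^ 2 * X b ^ 4)
    + 6 * (X a * X b ^ 5) + X b ^ 6) * G a b, ?_, by ring⟩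
  refine IsRational.mul _ _ ?_ hG
  have h6 : IsRational (6 : MvPowerSeries σ ℕ) := by exact_mod_cast isRational_natCast 6
  have h15 : IsRational (15 : MvPowerSeries σ ℕ) := by exact_mod_cast isRational_natCast 15
  exact (((((isRational_pow hX 6).add _ _ (h6.mul _ _ ((isRational_pow hX 5).mul _ _ hY))).add _ _
    (h15.mul _ _ ((isRational_pow hX 4).mul _ _ (isRational_pow hY 2)))).add _ _
    (h15.mul _ _ ((isRational_pow hX 2).mul _ _ (isRational_pow hY 4)))).add _ _
    (h6.mul _ _ (hX.mul _ _ (isRational_pow hY 5)))).add _ _ (isRational_pow hY 6)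

end TwoLetters

/-! ### Series in two letters given by their coefficients -/

section Coefficients

open Classical in
/-- The series `∑_{i,j} g(i,j) a^i b^j`. -/
noncomputable def F (a b : σ) (g : ℕ → ℕ → ℕ) : MvPowerSeries σ ℕ :=
  fun m => if ∀ x, x ≠ a → x ≠ b → m x = 0 then g (m a) (m b) else 0

variable {a b : σ}

lemma coeff_F (g : ℕ → ℕ → ℕ) (m : σ →₀ ℕ) [Decidable (∀ x, x ≠ a → x ≠ b → m x = 0)] :
    coeff m (F a b g) = if ∀ x, x ≠ a → x ≠ b → m x = 0 then g (m a) (m b) else 0 := by
  rw [coeff_apply]
  unfold F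
  congr

lemma F_add (g h : ℕ → ℕ → ℕ) : F a b (fun i j => g i j + h i j) = F a b g + F a b h := by
  classical
  ext m
  rw [map_add, coeff_F, coeff_F, coeff_F]
  split_ifs <;> simp

lemma F_nsmul (n : ℕ) (g : ℕ → ℕ → ℕ) : F a b (fun i j => n * g i j) = n * F a b g := by
  classical
  ext m
  rw [← nsmul_eq_mul, map_nsmul, coeff_F, coeff_F]
  split_ifs <;> simp

lemma F_congr {g h : ℕ → ℕ → ℕ} (H : ∀ i j, g i j = h i j) : F a b g = F a b h := by
  have : g = h := by ext i j; exact H i j
  rw [this]

lemma coeff_X_mul (c : σ) (Y : MvPowerSeries σ ℕ) (m : σ →₀ ℕ) :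
    coeff m (X c * Y) = if m c = 0 then 0 else coeff (m - Finsupp.single c 1) Y := by
  classical
  rw [X_def, coeff_monomial_mul]
  by_cases h : m c = 0
  · rw [if_neg, if_pos h]
    intro hle
    have := hle c
    simp [h] at this
  · rw [if_pos, if_neg h, one_mul]
    rw [Finsupp.single_le_iff]
    omega

lemma X_mul_F_left (hab : a ≠ b) (g : ℕ → ℕ → ℕ) :
    X a * F a b g = F a b (fun i j => if i = 0 then 0 else g (i - 1) j) := by
  classical
  ext m
  rw [coeff_X_mul, coeff_F, coeff_F]
  by_cases h : m a = 0
  · simp [h]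
  · rw [if_neg h]
    have h1 : (∀ x, x ≠ a → x ≠ b → (m - Finsupp.single a 1 : σ →₀ ℕ) x = 0) ↔
        ∀ x, x ≠ a → x ≠ b → m x = 0 := by
      refine forall_congr' fun x => forall_congr' fun hx => ?_
      rw [Finsupp.tsub_apply, Finsupp.single_eq_of_ne hx, Nat.sub_zero]
    simp only [h1]
    rw [Finsupp.tsub_apply, Finsupp.tsub_apply, Finsupp.single_eq_same,
      Finsupp.single_eq_of_ne hab.symm, Nat.sub_zero, if_neg h]

lemma F_comm (g : ℕ → ℕ → ℕ) : F a b g = F b a (fun i j => g j i) := by
  classical
  ext m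
  rw [coeff_F, coeff_F]
  have : (∀ x, x ≠ a → x ≠ b → m x = 0) ↔ ∀ x, x ≠ b → x ≠ a → m x = 0 := by tauto
  simp only [this]

lemma X_mul_F_right (hab : a ≠ b) (g : ℕ → ℕ → ℕ) :
    X b * F a b g = F a b (fun i j => if j = 0 then 0 else g i (j - 1)) := by
  rw [F_comm, X_mul_F_left hab.symm, F_comm]

/-- `F` of the constant function `1` is `a* b*`. -/
lemma F_one (hab : a ≠ b) : F a b (fun _ _ => 1) = starSeries (X a) * starSeries (X b) := by
  apply eq_star_mul (by simp)
  have h2 : F a b (fun i _ => if i = 0 then 1 else 0) = starSeries (X b) * 1 := by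
    apply eq_star_mul (by simp)
    have h3 : (1 : MvPowerSeries σ ℕ) = F a b (fun i j => if i = 0 ∧ j = 0 then 1 else 0) := by
      classical
      ext m
      rw [coeff_one, coeff_F]
      by_cases hm : m = 0
      · subst hm; simp
      · rw [if_neg hm]
        split_ifs with h4 h5
        · exfalso
          apply hm
          ext x
          by_cases hxa : x = a
          · rw [hxa]; exact h5.1
          · by_cases hxb : x = b
            · rw [hxb]; exact h5.2
            · exact h4 x hxa hxb
        · rfl
        · rfl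
    rw [h3, X_mul_F_right hab, ← F_add]
    apply F_congr
    intro i j
    by_cases hi : i = 0 <;> by_cases hj : j = 0 <;> simp [hi, hj]
  rw [← mul_one (starSeries (X b)), ← h2, X_mul_F_left hab, ← F_add]
  apply F_congr
  intro i j
  by_cases hi : i = 0 <;> simp [hi]

/-- The coefficients of `(a*)^(r+1) (b*)^(t+1)`. -/
lemma F_choose (hab : a ≠ b) (r t : ℕ) :
    F a b (fun i j => (i + r).choose r * (j + t).choose t) =
      starSeries (X a) ^ (r + 1) * starSeries (X b) ^ (t + 1) := by
  induction r with
  | zero =>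
    induction t with
    | zero => simpa using F_one hab
    | succ t ih =>
      have : F a b (fun i j => (i + 0).choose 0 * (j + (t + 1)).choose (t + 1)) =
          starSeries (X b) * F a b (fun i j => (i + 0).choose 0 * (j + t).choose t) := by
        apply eq_star_mul (by simp)
        rw [X_mul_F_right hab, ← F_add]
        apply F_congr
        intro i j
        rcases j with _ | j
        · simp
        · simp only [Nat.choose_zero_right, one_mul, Nat.add_eq_zero_iff, one_ne_zero, and_false,
            if_false, Nat.add_sub_cancel]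
          rw [show j + 1 + (t + 1) = (j + 1 + t) + 1 by ring, Nat.choose_succ_succ,
            show j + (t + 1) = j + 1 + t by ring]
      rw [this, ih]
      ring
  | succ r ih =>
    have : F a b (fun i j => (i + (r + 1)).choose (r + 1) * (j + t).choose t) =
        starSeries (X a) * F a b (fun i j => (i + r).choose r * (j + t).choose t) := by
      apply eq_star_mul (by simp)
      rw [X_mul_F_left hab, ← F_add]
      apply F_congr
      intro i j
      rcases i with _ | i
      · simp
      · simp only [Nat.add_eq_zero_iff, one_ne_zero, and_false,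
          if_false, Nat.add_sub_cancel]
        rw [show i + 1 + (r + 1) = (i + 1 + r) + 1 by ring, Nat.choose_succ_succ,
          show i + (r + 1) = i + 1 + r by ring]
        ring
    rw [this, ih]
    ring

end Coefficients

/-! ### The nonnegative integral series `T` with non-semilinear support -/

section TheSeries

variable (a b : σ)

/-- The series `∑ (binom(i+2,2) - (j+1))² a^i b^j`. -/
noncomputable def T : MvPowerSeries σ ℕ :=
  F a b (fun i j => ((((i + 2).choose 2 : ℕ) - ((j + 1 : ℕ)) : ℤ) ^ 2).toNat)

/-- `E r t = (a*)^(r+1) (b*)^(t+1)`. -/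
noncomputable def E (r t : ℕ) : MvPowerSeries σ ℕ :=
  starSeries (X a) ^ (r + 1) * starSeries (X b) ^ (t + 1)

lemma isRational_E (r t : ℕ) : IsRational (E a b r t) :=
  (isRational_pow (isRational_star_X a) _).mul _ _ (isRational_pow (isRational_star_X b) _)

lemma choose_identity (i j : ℕ) :
    ((((i + 2).choose 2 : ℕ) - ((j + 1 : ℕ)) : ℤ) ^ 2).toNat
      + (6 * ((i + 3).choose 3 * (j + 0).choose 0) + 1 * ((i + 0).choose 0 * (j + 1).choose 1)
        + 2 * ((i + 2).choose 2 * (j + 1).choose 1))
      = 6 * ((i + 4).choose 4 * (j + 0).choose 0) + 1 * ((i + 2).choose 2 * (j + 0).choose 0)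
        + 2 * ((i + 0).choose 0 * (j + 2).choose 2) := by
  have h2 : ∀ n : ℕ, (((n + 2).choose 2 : ℕ) : ℚ) = (n + 1) * (n + 2) / 2 := by
    intro n
    rw [Nat.cast_choose_two]
    push_cast
    ring
  have h3 : ∀ n : ℕ, (((n + 3).choose 3 : ℕ) : ℚ) = (n + 1) * (n + 2) * (n + 3) / 6 := by
    intro n
    rw [Nat.cast_choose_eq_ascPochhammer_div]
    simp [ascPochhammer_succ_eval, Nat.factorial]
    ring
  have h4 : ∀ n : ℕ, (((n + 4).choose 4 : ℕ) : ℚ) =
      (n + 1) * (n + 2) * (n + 3) * (n + 4) / 24 := by
    intro n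
    rw [Nat.cast_choose_eq_ascPochhammer_div]
    simp [ascPochhammer_succ_eval, Nat.factorial]
    ring
  have h0 : ((((((i + 2).choose 2 : ℕ) - ((j + 1 : ℕ)) : ℤ) ^ 2).toNat : ℕ) : ℚ) =
      ((((i + 2).choose 2 : ℕ) : ℚ) - (j + 1)) ^ 2 := by
    have : ((((((i + 2).choose 2 : ℕ) - ((j + 1 : ℕ)) : ℤ) ^ 2).toNat : ℕ) : ℤ) =
      (((i + 2).choose 2 : ℕ) - ((j + 1 : ℕ)) : ℤ) ^ 2 := Int.toNat_of_nonneg (sq_nonneg _)
    have h := congrArg (Int.cast : ℤ → ℚ) this
    push_cast at h ⊢
    exact h
  have key : ∀ x y : ℕ, (x : ℚ) = y → x = y := fun x y h => by exact_mod_cast h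
  apply key
  push_cast at h0 ⊢
  rw [h0]
  simp only [Nat.choose_zero_right, Nat.choose_one_right, h2, h3, h4]
  push_cast
  ring

variable {a b}

lemma T_add (hab : a ≠ b) :
    T a b + (6 * E a b 3 0 + 1 * E a b 0 1 + 2 * E a b 2 1) =
      6 * E a b 4 0 + 1 * E a b 2 0 + 2 * E a b 0 2 := by
  have hn : ∀ n : ℕ, ∀ r t : ℕ, (n : MvPowerSeries σ ℕ) * E a b r t =
      F a b (fun i j => n * ((i + r).choose r * (j + t).choose t)) := by
    intro n r t
    rw [F_nsmul, F_choose hab, E]
  have h6 := fun r t => hn 6 r t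
  have h1 := fun r t => hn 1 r t
  have h2 := fun r t => hn 2 r t
  push_cast at h6 h1 h2
  rw [h6, h1, h2, h6, h1, h2, T, ← F_add, ← F_add, ← F_add, ← F_add, ← F_add]
  apply F_congr
  intro i j
  exact choose_identity i j

/-- The monomial `a⁵b⁷`. -/
noncomputable def mono (a b : σ) : σ →₀ ℕ := Finsupp.single a 5 + Finsupp.single b 7

lemma monomial_mono (a b : σ) : monomial (mono a b) (1 : ℕ) = X a ^ 5 * X b ^ 7 := by
  rw [X_pow_eq, X_pow_eq, monomial_mul_monomial, mono, one_mul]

lemma E_mono {r t r' t' : ℕ} (hr : r ≤ r') (ht : t ≤ t') : RLe (E a b r t) (E a b r' t') := by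
  have hp : ∀ (c : σ) (s s' : ℕ), s ≤ s' →
      RLe (starSeries (X c) ^ (s + 1)) (starSeries (X c) ^ (s' + 1)) := by
    intro c s s' hs
    induction s', hs using Nat.le_induction with
    | base => exact RLe.refl _
    | succ n _ ih =>
      refine ih.trans ?_
      have := (one_rle_star (S := (X c : MvPowerSeries σ ℕ)) (by simp) (isRational_X c)).mul_left
        (starSeries (X c) ^ (n + 1)) (isRational_pow (isRational_star_X c) _)
      rwa [mul_one, ← pow_succ] at this
  exact RLe.mul (isRational_pow (isRational_star_X a) _) (isRational_pow (isRational_star_X b) _)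
    (hp a r r' hr) (hp b t t' ht)

lemma isRational_ofNat (n : ℕ) : IsRational (n : MvPowerSeries σ ℕ) := isRational_natCast n

lemma P_rle_G : RLe (X a ^ 5 * X b ^ 7 *
    (6 * E a b 4 0 + 1 * E a b 2 0 + 2 * E a b 0 2)) (G a b) := by
  have h1 : IsRational (1 : MvPowerSeries σ ℕ) := isRational_one
  have h2 : IsRational (2 : MvPowerSeries σ ℕ) := by exact_mod_cast isRational_natCast 2
  have h6 : IsRational (6 : MvPowerSeries σ ℕ) := by exact_mod_cast isRational_natCast 6
  have h11 : IsRational (11 : MvPowerSeries σ ℕ) := by exact_mod_cast isRational_natCast 11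
  have h20 : IsRational (20 : MvPowerSeries σ ℕ) := by exact_mod_cast isRational_natCast 20
  have hE : RLe (6 * E a b 4 0 + 1 * E a b 2 0 + 2 * E a b 0 2) (20 * E a b 4 2) := by
    have := (((E_mono (a := a) (b := b) (r := 4) (t := 0) (r' := 4) (t' := 2) (by norm_num)
      (by norm_num)).mul_left 6 h6).add ((E_mono (a := a) (b := b) (r := 2) (t := 0) (r' := 4)
      (t' := 2) (by norm_num) (by norm_num)).mul_left 1 h1)).add ((E_mono (a := a) (b := b)
      (r := 0) (t := 2) (r' := 4) (t' := 2) (by norm_num) (by norm_num)).mul_left 2 h2)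
    refine this.trans ⟨11 * E a b 4 2, h11.mul _ _ (isRational_E _ _ _ _), by ring⟩
  have hX := isRational_X (σ := σ) a
  have hY := isRational_X (σ := σ) b
  have hm : IsRational (X a ^ 5 * X b ^ 7 : MvPowerSeries σ ℕ) :=
    (isRational_pow hX 5).mul _ _ (isRational_pow hY 7)
  have hm3 : IsRational (20 * (X a ^ 3 * X b ^ 3) : MvPowerSeries σ ℕ) :=
    h20.mul _ _ ((isRational_pow hX 3).mul _ _ (isRational_pow hY 3))
  have e1 := hE.mul_left _ hm
  have e2 := (block_rle_G a b).mul_left _ hm3
  have e3 := e2.trans (twenty_rle_G a b)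
  refine e1.trans ?_
  convert e3 using 1
  rw [E]
  ring

end TheSeries

/-! ### Words with a given Parikh vector -/

section Words

lemma parikh_nil : parikh ([] : List σ) = 0 := by simp [parikh]

lemma parikh_cons (a : σ) (w : List σ) : parikh (a :: w) = Finsupp.single a 1 + parikh w := by
  simp [parikh]

lemma degree_parikh (w : List σ) : (parikh w).degree = w.length := by
  induction w with
  | nil => simp [parikh_nil]
  | cons a w ih => rw [parikh_cons, map_add, ih, Finsupp.degree_single]; simp [add_comm]

lemma finite_words [Finite σ] (m : σ →₀ ℕ) : {w : List σ | parikh w = m}.Finite := by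
  apply (List.finite_length_eq σ m.degree).subset
  intro w hw
  simp only [Set.mem_ofPred_eq] at hw ⊢
  rw [← hw, degree_parikh]

/-- The number of words with Parikh vector `m`. -/
noncomputable def W (m : σ →₀ ℕ) : ℕ := Set.ncard {w : List σ | parikh w = m}

lemma words_ne_zero (m : σ →₀ ℕ) (hm : m ≠ 0) :
    {w : List σ | parikh w = m} =
      ⋃ a : {a : σ // m a ≠ 0}, (List.cons a.1) '' {w | parikh w = m - Finsupp.single a.1 1} := by
  classical
  ext w
  simp only [Set.mem_ofPred_eq, Set.mem_iUnion, Set.mem_image]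
  constructor
  · intro h
    rcases w with _ | ⟨a, w⟩
    · rw [parikh_nil] at h; exact absurd h.symm hm
    · rw [parikh_cons] at h
      have ha : m a ≠ 0 := by
        rw [← h, Finsupp.add_apply, Finsupp.single_eq_same]; omega
      refine ⟨⟨a, ha⟩, w, ?_, rfl⟩
      change parikh w = m - Finsupp.single a 1
      rw [← h, add_tsub_cancel_left]
  · rintro ⟨⟨a, ha⟩, w', h, rfl⟩
    rw [parikh_cons, h, add_tsub_cancel_of_le]
    rw [Finsupp.single_le_iff]
    exact Nat.one_le_iff_ne_zero.mpr ha

lemma W_ne_zero [Fintype σ] (m : σ →₀ ℕ) (hm : m ≠ 0) :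
    W m = ∑ a : σ, if m a = 0 then 0 else W (m - Finsupp.single a 1) := by
  classical
  have h1 : W m = Nat.card (⋃ a : {a : σ // m a ≠ 0},
      (List.cons a.1) '' {w : List σ | parikh w = m - Finsupp.single a.1 1}) := by
    rw [W, words_ne_zero m hm, Nat.card_coe_set_eq]
  have hdisj : ∀ a b : {a : σ // m a ≠ 0}, a ≠ b →
      Disjoint ((List.cons a.1) '' {w : List σ | parikh w = m - Finsupp.single a.1 1})
       ((List.cons b.1) '' {w : List σ | parikh w = m - Finsupp.single b.1 1}) := by
    intro a b hab
    rw [Set.disjoint_left]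
    rintro _ ⟨w, _, rfl⟩ ⟨w', _, h⟩
    apply hab
    ext
    simp only [List.cons.injEq] at h
    exact h.1.symm
  rw [h1]
  have h2 : Nat.card (⋃ a : {a : σ // m a ≠ 0},
      (List.cons a.1) '' {w : List σ | parikh w = m - Finsupp.single a.1 1}) =
      ∑ a : {a : σ // m a ≠ 0}, Nat.card ((List.cons a.1) ''
        {w : List σ | parikh w = m - Finsupp.single a.1 1}) := by
    have : ∀ a : {a : σ // m a ≠ 0}, Finite ((List.cons a.1) ''
        {w : List σ | parikh w = m - Finsupp.single a.1 1}) := by
      intro a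
      exact ((finite_words _).image _).to_subtype
    rw [← Nat.card_sigma]
    apply Nat.card_congr
    exact Set.unionEqSigmaOfDisjoint hdisj
  rw [h2]
  have h3 : ∀ a : {a : σ // m a ≠ 0}, Nat.card ((List.cons a.1) ''
        {w : List σ | parikh w = m - Finsupp.single a.1 1}) = W (m - Finsupp.single a.1 1) := by
    intro a
    rw [Nat.card_coe_set_eq, Set.ncard_image_of_injective _ (List.cons_injective), W]
  rw [Finset.sum_congr rfl fun a _ => h3 a]
  rw [← Finset.sum_subtype (p := fun a => m a ≠ 0) (Finset.univ.filter (fun a => m a ≠ 0))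
    (by simp) (fun a => W (m - Finsupp.single a 1)), Finset.sum_filter]
  apply Finset.sum_congr rfl
  intro a _
  by_cases h : m a = 0 <;> simp [h]

lemma charSeries_top [Fintype σ] :
    charSeries (⊤ : Language σ) = starSeries (∑ a : σ, X a) := by
  classical
  have key : charSeries (⊤ : Language σ) =
      1 + (∑ a : σ, X a) * charSeries (⊤ : Language σ) := by
    have hc : ∀ m : σ →₀ ℕ, coeff m (charSeries (⊤ : Language σ)) = W m := by
      intro m
      rw [coeff_apply]
      unfold charSeries W
      congr 1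
      ext w
      exact ⟨fun h => h.2, fun h => ⟨trivial, h⟩⟩
    ext m
    rw [map_add, Finset.sum_mul, map_sum, hc, coeff_one]
    simp_rw [coeff_X_mul, hc]
    by_cases hm : m = 0
    · subst hm
      simp only [Finsupp.coe_zero, Pi.zero_apply, if_true, Finset.sum_const_zero, add_zero]
      have : {w : List σ | parikh w = 0} = {[]} := by
        ext w
        simp only [Set.mem_ofPred_eq, Set.mem_singleton_iff]
        constructor
        · intro h
          have := degree_parikh w
          rw [h] at this
          simp only [map_zero] at this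
          exact List.length_eq_zero_iff.mp this.symm
        · rintro rfl; exact parikh_nil
      rw [W, this, Set.ncard_singleton]
    · rw [if_neg hm, W_ne_zero m hm, zero_add]
  have := eq_star_mul (by simp) key
  rwa [mul_one] at this

/-- Any two series summing to the series of all words are the characteristic series of a
language and of its complement. -/
lemma exists_language [Fintype σ] (S T : MvPowerSeries σ ℕ)
    (h : S + T = charSeries (⊤ : Language σ)) :
    ∃ L : Language σ, charSeries L = S ∧ charSeries Lᶜ = T := by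
  classical
  have hW : ∀ m : σ →₀ ℕ, coeff m S + coeff m T = Set.ncard {w : List σ | parikh w = m} := by
    intro m
    rw [← map_add, h, coeff_apply]
    unfold charSeries
    congr 1
    ext w
    exact ⟨fun h => h.2, fun h => ⟨trivial, h⟩⟩
  have hch : ∀ m : σ →₀ ℕ, ∃ A : Set (List σ), A ⊆ {w : List σ | parikh w = m} ∧
      A.ncard = coeff m S := by
    intro m
    exact Set.exists_subset_card_eq (by rw [← hW]; omega)
  choose A hA hcard using hch
  let L : Language σ := {w | w ∈ A (parikh w)}
  have hmem : ∀ w, w ∈ L ↔ w ∈ A (parikh w) := fun w => Iff.rfl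
  refine ⟨L, ?_, ?_⟩
  · ext m
    rw [coeff_apply]
    unfold charSeries
    rw [← hcard m]
    congr 1
    ext w
    simp only [Set.mem_ofPred_eq, hmem]
    constructor
    · rintro ⟨h1, rfl⟩; exact h1
    · intro h1
      have : parikh w = m := hA m h1
      exact ⟨by rw [this]; exact h1, this⟩
  · ext m
    rw [coeff_apply]
    unfold charSeries
    have h1 : {w : List σ | w ∈ Lᶜ ∧ parikh w = m} = {w : List σ | parikh w = m} \ A m := by
      ext w
      simp only [Set.mem_ofPred_eq, Set.mem_sdiff]
      constructor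
      · rintro ⟨h1, rfl⟩; exact ⟨rfl, fun h2 => h1 h2⟩
      · rintro ⟨rfl, h2⟩
        exact ⟨fun h3 => h2 h3, rfl⟩
    rw [h1, Set.ncard_sdiff (hA m) ((finite_words m).subset (hA m)), ← hW, hcard]
    omega

end Words

/-! ### Supports of rational series are semilinear -/

section Support

open Pointwise

/-- The set of monomials occurring in `S`. -/
def supp (S : MvPowerSeries σ ℕ) : Set (σ →₀ ℕ) := {m | coeff m S ≠ 0}

lemma supp_add (S T : MvPowerSeries σ ℕ) : supp (S + T) = supp S ∪ supp T := by
  ext m
  simp only [supp, Set.mem_ofPred_eq, Set.mem_union, map_add]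
  omega

lemma supp_mul (S T : MvPowerSeries σ ℕ) : supp (S * T) = supp S + supp T := by
  classical
  ext m
  simp only [supp, Set.mem_ofPred_eq, Set.mem_add, coeff_mul]
  rw [Ne, Finset.sum_eq_zero_iff]
  push Not
  constructor
  · rintro ⟨p, hp, h⟩
    rw [Finset.HasAntidiagonal.mem_antidiagonal] at hp
    exact ⟨p.1, left_ne_zero_of_mul h, p.2, right_ne_zero_of_mul h, hp⟩
  · rintro ⟨x, hx, y, hy, rfl⟩
    exact ⟨(x, y), Finset.HasAntidiagonal.mem_antidiagonal.mpr rfl, mul_ne_zero hx hy⟩

lemma supp_star {S : MvPowerSeries σ ℕ} (h : constantCoeff S = 0) :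
    supp (starSeries S) = (AddSubmonoid.closure (supp S) : Set (σ →₀ ℕ)) := by
  classical
  have hs : ∀ m, m ∈ supp (starSeries S) ↔ ∃ k, m ∈ supp (S ^ k) := by
    intro m
    simp only [supp, Set.mem_ofPred_eq]
    rw [coeff_star_eq h m _ (Nat.lt_succ_self _), Ne, Finset.sum_eq_zero_iff]
    push Not
    constructor
    · rintro ⟨k, _, hk⟩; exact ⟨k, hk⟩
    · rintro ⟨k, hk⟩
      refine ⟨k, ?_, hk⟩
      rw [Finset.mem_range]
      by_contra hkN
      apply hk
      apply coeff_eq_zero_of_constantCoeff_nilpotent (m := 1) (by simpa using h)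
      omega
  have h0 : (0 : σ →₀ ℕ) ∈ supp (starSeries S) := by
    rw [hs]
    exact ⟨0, by simp [supp]⟩
  ext m
  rw [SetLike.mem_coe]
  constructor
  · rw [hs]
    rintro ⟨k, hk⟩
    induction k generalizing m with
    | zero =>
      simp only [pow_zero, supp, Set.mem_ofPred_eq, coeff_one] at hk
      have : m = 0 := by by_contra h; simp [h] at hk
      rw [this]; exact zero_mem _
    | succ k ih =>
      rw [pow_succ, supp_mul] at hk
      obtain ⟨x, hx, y, hy, rfl⟩ := hk
      exact add_mem (ih x hx) (AddSubmonoid.subset_closure hy)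
  · intro hm
    induction hm using AddSubmonoid.closure_induction with
    | mem x hx => rw [hs]; exact ⟨1, by rwa [pow_one]⟩
    | zero => exact h0
    | add x y _ _ hx hy =>
      rw [hs] at hx hy ⊢
      obtain ⟨k, hk⟩ := hx
      obtain ⟨l, hl⟩ := hy
      exact ⟨k + l, by rw [pow_add, supp_mul]; exact Set.add_mem_add hk hl⟩

lemma isSemilinearSet_supp {S : MvPowerSeries σ ℕ} (h : IsRational S) :
    IsSemilinearSet (supp S) := by
  induction h with
  | finiteSupport S h => exact IsSemilinearSet.of_finite h
  | add S T _ _ hS hT => rw [supp_add]; exact hS.union hT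
  | mul S T _ _ hS hT => rw [supp_mul]; exact hS.add hT
  | star S h0 _ hS => rw [supp_star h0]; exact hS.closure

/-- A semilinear set contained in a set without three terms in arithmetic progression is finite. -/
lemma finite_of_isSemilinearSet {Z : Set (σ →₀ ℕ)} (hZ : IsSemilinearSet Z)
    (h : ∀ x p : σ →₀ ℕ, x ∈ Z → x + p ∈ Z → x + p + p ∈ Z → p = 0) : Z.Finite := by
  obtain ⟨S, hS, hlin, rfl⟩ := hZ
  apply hS.sUnion
  intro t ht
  obtain ⟨x, u, hu, rfl⟩ := hlin t ht
  have hz : ∀ p ∈ AddSubmonoid.closure u, p = 0 := by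
    intro p hp
    apply h x p
    · exact ⟨_, ht, ⟨0, zero_mem _, by simp⟩⟩
    · exact ⟨_, ht, ⟨p, hp, by simp⟩⟩
    · exact ⟨_, ht, ⟨p + p, add_mem hp hp, by simp [add_assoc]⟩⟩
  apply (Set.finite_singleton x).subset
  rintro _ ⟨p, hp, rfl⟩
  rw [Set.mem_singleton_iff, hz p hp]
  simp

end Support

section Main

open Pointwise

lemma two_mul_choose (n : ℕ) : 2 * (n + 2).choose 2 = (n + 2) * (n + 1) := by
  rw [Nat.choose_two_right]
  have : Even ((n + 2) * (n + 2 - 1)) := by
    rw [show n + 2 - 1 = n + 1 by omega, mul_comm]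
    exact Nat.even_mul_succ_self (n + 1)
  rw [Nat.mul_div_cancel' this.two_dvd]
  rfl

/-- The series `a⁵b⁷ T` is not rational. -/
lemma not_isRational [Finite σ] {a b : σ} (hab : a ≠ b) :
    ¬ IsRational (monomial (mono a b) 1 * T a b) := by
  classical
  intro hR
  have : AddMonoid.FG (σ →₀ ℕ) := Module.Finite.iff_addMonoid_fg.mp inferInstance
  have h1 := isSemilinearSet_supp hR
  have h2 : IsSemilinearSet ((mono a b) +ᵥ
      (AddSubmonoid.closure ({Finsupp.single a 1, Finsupp.single b 1} : Set (σ →₀ ℕ)) :
        Set (σ →₀ ℕ))) :=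
    IsLinearSet.isSemilinearSet ⟨_, _, by simp, rfl⟩
  have h3 := h1.compl.inter h2
  -- description of the points of the intersection
  have key : ∀ m, m ∈ (supp (monomial (mono a b) 1 * T a b))ᶜ ∩ ((mono a b) +ᵥ
      (AddSubmonoid.closure ({Finsupp.single a 1, Finsupp.single b 1} : Set (σ →₀ ℕ)) :
        Set (σ →₀ ℕ))) ↔ ∃ i j : ℕ, m = mono a b + (Finsupp.single a i + Finsupp.single b j) ∧
          (i + 2).choose 2 = j + 1 := by
    intro m
    have hcoeff : ∀ i j : ℕ, (mono a b + (Finsupp.single a i + Finsupp.single b j)) ∈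
        (supp (monomial (mono a b) 1 * T a b))ᶜ ↔ (i + 2).choose 2 = j + 1 := by
      intro i j
      rw [Set.mem_compl_iff, supp, Set.mem_ofPred_eq, not_not, coeff_add_monomial_mul, one_mul, T,
        coeff_F]
      rw [if_pos]
      · simp only [Finsupp.add_apply, Finsupp.single_eq_same, Finsupp.single_eq_of_ne hab,
          Finsupp.single_eq_of_ne hab.symm, add_zero, zero_add]
        rw [Int.toNat_eq_zero]
        constructor
        · intro h
          have := pow_eq_zero_iff (two_ne_zero) |>.mp (le_antisymm h (sq_nonneg _))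
          omega
        · intro h
          rw [h]; simp
      · intro x hx hx'
        rw [Finsupp.add_apply, Finsupp.single_eq_of_ne hx, Finsupp.single_eq_of_ne hx', add_zero]
    constructor
    · rintro ⟨hm1, ⟨q, hq, rfl⟩⟩
      rw [SetLike.mem_coe, AddSubmonoid.mem_closure_pair] at hq
      obtain ⟨i, j, rfl⟩ := hq
      have e : (i • Finsupp.single a 1 + j • Finsupp.single b 1 : σ →₀ ℕ) =
          Finsupp.single a i + Finsupp.single b j := by simp
      simp only [e, vadd_eq_add] at hm1 ⊢
      exact ⟨i, j, rfl, (hcoeff i j).mp hm1⟩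
    · rintro ⟨i, j, rfl, h⟩
      refine ⟨(hcoeff i j).mpr h, ⟨_, ?_, rfl⟩⟩
      rw [SetLike.mem_coe, AddSubmonoid.mem_closure_pair]
      exact ⟨i, j, by simp⟩
  have h4 := finite_of_isSemilinearSet h3 (by
    intro x p hx hxp hxpp
    rw [key] at hx hxp hxpp
    obtain ⟨i, j, rfl, h⟩ := hx
    obtain ⟨i', j', he', h'⟩ := hxp
    obtain ⟨i'', j'', he'', h''⟩ := hxpp
    have ev : ∀ (u v : ℕ), (mono a b + (Finsupp.single a u + Finsupp.single b v)) a = 5 + u := by
      intro u v
      simp [mono, Finsupp.single_eq_of_ne hab]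
    have ev' : ∀ (u v : ℕ), (mono a b + (Finsupp.single a u + Finsupp.single b v)) b = 7 + v := by
      intro u v
      simp [mono, Finsupp.single_eq_of_ne hab.symm]
    have eo : ∀ (u v : ℕ) (x : σ), x ≠ a → x ≠ b →
        (mono a b + (Finsupp.single a u + Finsupp.single b v)) x = 0 := by
      intro u v x hx hx'
      simp [mono, Finsupp.single_eq_of_ne hx, Finsupp.single_eq_of_ne hx']
    have a1 : i + p a = i' := by
      have := DFunLike.congr_fun he' a
      rw [Finsupp.add_apply, ev, ev] at this; omega
    have a2 : i' + p a = i'' := by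
      have := DFunLike.congr_fun he'' a
      rw [Finsupp.add_apply, Finsupp.add_apply, ev, ev] at this; omega
    have b1 : j + p b = j' := by
      have := DFunLike.congr_fun he' b
      rw [Finsupp.add_apply, ev', ev'] at this; omega
    have b2 : j' + p b = j'' := by
      have := DFunLike.congr_fun he'' b
      rw [Finsupp.add_apply, Finsupp.add_apply, ev', ev'] at this; omega
    have c0 := two_mul_choose i
    have c1 := two_mul_choose i'
    have c2 := two_mul_choose i''
    rw [h] at c0
    rw [h'] at c1
    rw [h''] at c2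
    have hpa : p a = 0 := by
      subst a1 a2 b1 b2
      have : p a * p a = 0 := by nlinarith
      exact mul_self_eq_zero.mp this
    have hpb : p b = 0 := by
      rw [hpa] at a1
      simp only [add_zero] at a1
      rw [← a1] at c1
      omega
    ext x
    by_cases hxa : x = a
    · rw [hxa, hpa]; rfl
    · by_cases hxb : x = b
      · rw [hxb, hpb]; rfl
      · have := DFunLike.congr_fun he' x
        rw [Finsupp.add_apply, eo _ _ _ hxa hxb, eo _ _ _ hxa hxb] at this
        simpa using this)
  have h5 : Function.Injective (fun i : ℕ => mono a b + (Finsupp.single a i +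
      Finsupp.single b ((i + 2).choose 2 - 1))) := by
    intro i i' h
    have := DFunLike.congr_fun h a
    simpa [mono, Finsupp.single_eq_of_ne hab] using this
  apply Set.infinite_of_injective_forall_mem h5 _ h4
  intro i
  rw [key]
  refine ⟨i, _, rfl, ?_⟩
  have := Nat.choose_pos (show 2 ≤ i + 2 by omega)
  omega

/-- For every finite alphabet with at least two letters there is a language whose
characteristic series in commuting variables is rational over `ℕ` while the characteristic
series of its complement is not. -/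
theorem result (σ : Type*) [Fintype σ] [Nontrivial σ] :
    ∃ L : Language σ, IsRational (charSeries L) ∧ ¬ IsRational (charSeries Lᶜ) := by
  classical
  obtain ⟨a, b, hab⟩ := exists_pair_ne σ
  obtain ⟨D, hD, hG⟩ := P_rle_G (a := a) (b := b)
  have hT := T_add hab
  -- the series of all words dominates `(a+b)*`
  have hall : RLe (G a b) (charSeries (⊤ : Language σ)) := by
    rw [charSeries_top]
    have hU : constantCoeff (X a + X b : MvPowerSeries σ ℕ) = 0 := by simp
    have hsum : (∑ c : σ, X c : MvPowerSeries σ ℕ) =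
        (X a + X b) + ∑ c ∈ (Finset.univ.erase a).erase b, X c := by
      rw [← Finset.add_sum_erase Finset.univ (fun c => (X c : MvPowerSeries σ ℕ))
        (Finset.mem_univ a), ← Finset.add_sum_erase (Finset.univ.erase a)
        (fun c => (X c : MvPowerSeries σ ℕ)) (Finset.mem_erase.mpr ⟨hab.symm, Finset.mem_univ b⟩)]
      ring
    have hrest : IsRational (∑ c ∈ (Finset.univ.erase a).erase b, (X c : MvPowerSeries σ ℕ)) :=
      isRational_sum _ _ fun c _ => isRational_X c
    set V : MvPowerSeries σ ℕ := ∑ c ∈ (Finset.univ.erase a).erase b, X c with hV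
    have hc : constantCoeff (X a + X b + V : MvPowerSeries σ ℕ) = 0 := by simp [hV]
    rw [hsum]
    have h1 : starSeries (X a + X b + V) = G a b * (1 + V * starSeries (X a + X b + V)) := by
      apply eq_star_mul hU
      conv_lhs => rw [star_eq hc]
      ring
    have hst : IsRational (starSeries (X a + X b + V)) :=
      (((isRational_X a).add _ _ (isRational_X b)).add _ _ hrest).star _ hc
    refine ⟨G a b * (V * starSeries (X a + X b + V)), (isRational_G a b).mul _ _ (hrest.mul _ _ hst), ?_⟩
    conv_lhs => rw [h1]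
    ring
  obtain ⟨D', hD', hG'⟩ := hall
  have hE := fun r t => isRational_E a b r t
  have h1 : IsRational (1 : MvPowerSeries σ ℕ) := isRational_one
  have h2 : IsRational (2 : MvPowerSeries σ ℕ) := by exact_mod_cast isRational_natCast 2
  have h6 : IsRational (6 : MvPowerSeries σ ℕ) := by exact_mod_cast isRational_natCast 6
  have hN : IsRational (6 * E a b 3 0 + 1 * E a b 0 1 + 2 * E a b 2 1) :=
    ((h6.mul _ _ (hE _ _)).add _ _ (h1.mul _ _ (hE _ _))).add _ _ (h2.mul _ _ (hE _ _))
  have hm : IsRational (X a ^ 5 * X b ^ 7 : MvPowerSeries σ ℕ) :=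
    (isRational_pow (isRational_X a) 5).mul _ _ (isRational_pow (isRational_X b) 7)
  obtain ⟨L, hL, hL'⟩ := exists_language
    (X a ^ 5 * X b ^ 7 * (6 * E a b 3 0 + 1 * E a b 0 1 + 2 * E a b 2 1) + D + D')
    (monomial (mono a b) 1 * T a b) (by
      rw [hG', hG, ← hT, monomial_mono]
      ring)
  refine ⟨L, ?_, ?_⟩
  · rw [hL]
    exact ((hm.mul _ _ hN).add _ _ hD).add _ _ hD'
  · rw [hL']
    exact not_isRational hab

end Main

end Pool.Agent.Results.MP_2e66a2_lc.ComplementNotRational
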